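import Pool.Agent.L5helper4.SR.Base

set_option autoImplicit false

/-!
# Every even number is `p + P_r` at strings of consecutive primes `p`, in residue classes, several at once

Let `k, m ≥ 1` and let `q` be squarefree. There are `K`, `B` and `δ > 0` and for every `A` a number `r`
such that for every set `S` of at least `K` shifts and all large `N` the following holds for ALL
`n_1, …, n_k` between `2 N + 1` and `N ^ A` for which no prime divides `x (n_1 - x) ⋯ (n_k - x)` for all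
`x` (for `k = 1`: for all even `n_1`) and all classes `a` modulo `q` for which `a ∏ (n_i - a)` is coprime to
`q`: for at least `N / (log N) ^ B` integers `t` between `N` and `2 N` the primes in `[t, t + max S]` are
`t + s`, `s ∈ H`, where `H ⊆ S` has at least `m` elements and does not depend on `t`, these primes `p` are
congruent to `a` modulo `q`, and all the numbers `n_i - p` have at most `r` prime factors, all at least
`N ^ δ`.

The theorem of Maynard and Tao for primes with almost prime companions, uniformly in the polynomial, is in the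
starting library (`Pool.Agent.R498.MP.stringsUR`, never handed in).
-/

namespace Pool.Agent.Results.MP_61161c_nt.RepresentationsAtPrimeStrings

open Filter Polynomial
open Pool.Agent.R498.MP (APZ)
open Pool.Agent.L5helper4.SR

/-- `v` has at most `r` prime factors, counted with multiplicity, all of them at least `w`. -/
def AlmostPrime (r : ℕ) (w : ℝ) (v : ℕ) : Prop :=
  v.primeFactorsList.length ≤ r ∧ ∀ p : ℕ, p.Prime → p ∣ v → w ≤ p

/-- no prime divides `x * ∏ (n i - x)` for all integers `x` -/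
def NoFixedDivisor {k : ℕ} (n : Fin k → ℕ) : Prop :=
  ∀ p : ℕ, p.Prime → ∃ x : ℤ, ¬ (p : ℤ) ∣ x * ∏ i, ((n i : ℤ) - x)

/-- a single even number -/
theorem noFixedDivisor_even (n : ℕ) (hn : Even n) : NoFixedDivisor (fun _ : Fin 1 => n) := by
  intro p hp
  by_contra hcon
  push Not at hcon
  have h1 : ∀ x : ℤ, (p : ℤ) ∣ x * ((n : ℤ) - x) := fun x => by
    have := hcon x
    simpa using this
  have hpi : Prime (p : ℤ) := Nat.prime_iff_prime_int.1 hp
  have h2 : (p : ℤ) ∣ (n : ℤ) - 1 := by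
    have := h1 1
    simpa using this
  have hp2 : p ≠ 2 := by
    rintro rfl
    obtain ⟨b, rfl⟩ := hn
    push_cast at h2
    omega
  have h3 := h1 2
  rcases hpi.dvd_or_dvd h3 with h4 | h4
  · have : p ∣ 2 := by exact_mod_cast h4
    exact hp2 ((Nat.prime_dvd_prime_iff_eq hp Nat.prime_two).1 this)
  · have h5 := dvd_sub h2 h4
    have h6 : (n : ℤ) - 1 - ((n : ℤ) - 2) = 1 := by ring
    rw [h6] at h5
    have : p ∣ 1 := by exact_mod_cast h5
    exact hp.one_lt.ne' (Nat.dvd_one.1 this)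

/-- **Every even number is `p + P_r` at strings of consecutive primes `p`.** -/
theorem result (k m q : ℕ) (hq : Squarefree q) :
    (∀ n : ℕ, Even n → NoFixedDivisor (fun _ : Fin 1 => n)) ∧
    ∃ (K B : ℕ) (δ : ℝ), 0 < δ ∧ ∀ A : ℕ, ∃ r : ℕ, ∀ S : Finset ℕ, K ≤ S.card →
      ∀ᶠ N : ℕ in atTop, ∀ n : Fin k → ℕ, (∀ i, 2 * N + 1 < n i ∧ n i ≤ N ^ A) → NoFixedDivisor n →
      ∀ a : ℕ, (∀ p : ℕ, p.Prime → p ∣ q → ¬ (p : ℤ) ∣ (a : ℤ) * ∏ i, ((n i : ℤ) - a)) →
      ∃ H ⊆ S, m ≤ H.card ∧ ∃ T : Finset ℕ, (N : ℝ) ≤ Real.log N ^ B * T.card ∧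
        ∀ t ∈ T, N < t ∧ t + S.sup id ≤ 2 * N ∧ (∀ y ≤ S.sup id, (t + y).Prime ↔ y ∈ H) ∧
          ∀ s ∈ H, t + s ≡ a [MOD q] ∧ ∀ i, ∃ v : ℕ, n i = t + s + v ∧ 1 < v ∧
            AlmostPrime r ((N : ℝ) ^ δ) v := by
  refine ⟨noFixedDivisor_even, ?_⟩
  obtain ⟨K, B, δ, hδ, h1⟩ := strings_fam k 1 q hq m
  refine ⟨K, B, δ, hδ, fun A => ?_⟩
  obtain ⟨r, h2⟩ := h1 (A + 2)
  refine ⟨r, fun S hS => ?_⟩
  filter_upwards [h2 S hS, eventually_ge_atTop 3, eventually_ge_atTop (S.sup id)] with N h3 hN2 hNS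
  intro n hn hadm a ha
  have hev : ∀ i, ∀ x : ℤ, (C (n i : ℤ) - X : ℤ[X]).eval x = n i - x := fun i x => by
    simp
  have hN : (3 : ℤ) ≤ N := by exact_mod_cast hN2
  obtain ⟨H, hHS, hHm, T, hT, h4⟩ := h3 (fun i => C (n i : ℤ) - X) (by
      intro i
      compute_degree) (by
      intro p hp
      obtain ⟨x, hx⟩ := hadm p hp
      refine ⟨x, ?_⟩
      simpa [hev] using hx) (by
      intro i x hx
      rw [hev]
      have h4 : |(n i : ℤ) - x| ≤ |(n i : ℤ)| + |x| := abs_sub _ _
      rw [Nat.abs_cast] at h4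
      have h5 : (n i : ℤ) ≤ (N : ℤ) ^ A := by exact_mod_cast (hn i).2
      have h6 : (1 : ℤ) ≤ (N : ℤ) ^ A := one_le_pow₀ (by linarith)
      have h7 : (2 : ℤ) * N + 1 ≤ (N : ℤ) ^ 2 := by nlinarith
      rw [pow_add]
      nlinarith) (by
      intro i x _ hx
      rw [hev]
      have h4 : ((2 * N + 1 : ℕ) : ℤ) < n i := by exact_mod_cast (hn i).1
      have h5 : ((S.sup id : ℕ) : ℤ) ≤ N := by exact_mod_cast hNS
      have h6 := le_abs_self x
      push_cast at h4
      have : 0 < (n i : ℤ) - x := by linarith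
      exact this.ne') a (by
      intro p hp hp1
      simpa [hev] using ha p hp hp1)
  refine ⟨H, hHS, hHm, T, hT, fun t ht => ?_⟩
  obtain ⟨h5, h6, h7, h8⟩ := h4 t ht
  refine ⟨h5, h6, h7, fun s hs => ⟨(h8 s hs).1, fun i => ?_⟩⟩
  have h9 := (h8 s hs).2 i
  rw [hev] at h9
  have hsS : s ≤ S.sup id := Finset.le_sup (f := id) (hHS hs)
  have h10 := (hn i).1
  refine ⟨n i - (t + s), by omega, by omega, ?_⟩
  have h11 : (n i : ℤ) - ((t + s : ℕ) : ℤ) = ((n i - (t + s) : ℕ) : ℤ) := by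
    rw [Nat.cast_sub (by omega)]
  rw [h11] at h9
  exact apz_nat h9

end Pool.Agent.Results.MP_61161c_nt.RepresentationsAtPrimeStrings
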