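import Pool.Agent.L5helper4.DL.Win
import Pool.Agent.Y882.MG.Quad2
import Pool.Agent.TH464.PW.Quad

/-!
# Almost primes `n ^ 2 + 1` in short intervals: popular differences at all scales

Hardy and Littlewood conjecture that `n ^ 2 + 1` is prime for about `C x / (2 log x)` integers `n ≤ x`; the
corresponding conjecture for several quadratic polynomials (Bateman and Horn) predicts `≍ H / (log H) ^ m` integers
`n` in an interval of length `H` such that `(n + j d) ^ 2 + 1` is prime for `m` given values of `j`.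

1. Let `P` be ANY set of at least `δ H / log H` integers `n` in an interval `(N, N + H]`, `N` arbitrary, such that
`n ^ 2 + 1` has no prime factor `≤ H ^ κ`. Then for EVERY `D` between `(log H) ^ B` and `H / (log H) ^ B` at least
`c D` of the differences `d ≤ D` have the property that ALL the parts `F ∋ 0` of the progression `0, 1, …, k - 1`
occur in `P` with the difference `d` at least `c H / (log H) ^ |F|` times.

2. For every large `N` this holds for the `n` in `(N, N + N ^ (3/4)]` such that `n ^ 2 + 1` has at most three prime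
factors, all of them at least `N ^ (7/40)`.

3. In arbitrarily short intervals `(N, N + X ^ h]`, `h > 0`, this holds for `r` prime factors, `r = 3, 4, 5`, for all
but `X ^ (2 t - h + ε)` of the `N ≤ X`, where `t = 29/40, 269/500, 1/2`.

Method. A sieve majorant for the set in windows of length `D` (`Pool.Agent.Y843.HS`, helper843 and others), the
relative Szemerédi theorem of Conlon, Fox and Zhao (`Pool.Agent.Y727.PSP`, helper727 and others), and, for the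
differences and the parts of the progression, `Pool.Agent.L5helper4.DL`. The lower bounds for the numbers of the
almost primes are the ones of `Pool.Agent.Y882.MG` (helper882; Richert's weights and a large sieve).
-/

set_option autoImplicit false

namespace Pool.Agent.L5helper4.Retired.MPf1a94ePopularDifferences

open Finset Filter
open Pool.Agent.TH464.PW

open Classical in
/-- the number of the elements `n` of `P` such that `n + j d` is in `P` for all `j ∈ F` -/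
noncomputable def occurrences (P : Finset ℕ) (F : Finset ℕ) (d : ℕ) : ℕ :=
  (P.filter (fun n => ∀ j ∈ F, n + j * d ∈ P)).card

open Classical in
/-- For all `D` between `(log H) ^ B` and `H / (log H) ^ B` at least `c D` of the `1 ≤ d ≤ D` are such that for
every `F ⊆ {0, …, k - 1}` with `0 ∈ F` at least `c H / (log H) ^ |F|` elements `n` of `P` are such that
`n + j d` is in `P` for all `j ∈ F`. -/
def Popular (k B : ℕ) (c : ℝ) (H : ℕ) (P : Finset ℕ) : Prop :=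
  ∀ D : ℕ, Real.log H ^ B ≤ D → D * Real.log H ^ B ≤ H →
    c * D ≤ (((Icc 1 D).filter (fun d => ∀ F ⊆ range k, 0 ∈ F →
      c * (H / Real.log H ^ F.card) ≤ (occurrences P F d : ℝ))).card : ℝ)

open Classical in
/-- The integers `n` in `(N, N + H]` such that `n ^ 2 + 1` has at most `r` prime factors (with multiplicity), all of
them at least `w`. -/
noncomputable def almost (r : ℕ) (w : ℝ) (N H : ℕ) : Finset ℕ :=
  (Ioc N (N + H)).filter (fun n => (n ^ 2 + 1).primeFactorsList.length ≤ r ∧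
    ∀ q : ℕ, q.Prime → q ∣ n ^ 2 + 1 → w ≤ q)

lemma ev (n : ℕ) : (quad 1 0 1).eval (n : ℤ) = ((n ^ 2 + 1 : ℕ) : ℤ) := by
  rw [quad_eval]
  push_cast
  ring

lemma hg : ∀ p : ℕ, p.Prime → ¬ ((p : ℤ) ∣ (1 : ℤ) ∧ (p : ℤ) ∣ (0 : ℤ) ∧ (p : ℤ) ∣ (1 : ℤ)) := by
  rintro p hp ⟨h1, -, -⟩
  have h2 : p ∣ 1 := by exact_mod_cast h1
  exact hp.one_lt.ne' (Nat.dvd_one.1 h2)

lemma sys : Pool.Agent.W123.RU.Poly.Sys (fun _ : Fin 1 => quad 1 0 1) where
  irr _ := quad_irr 1 0 1 one_ne_zero hg (by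
    rintro ⟨x, hx⟩
    nlinarith [mul_self_nonneg x])
  deg _ := by
    rw [quad_deg 1 0 1 one_ne_zero]
    norm_num
  lead _ := by
    rw [quad_lead 1 0 1 one_ne_zero]
    norm_num
  inj _ _ _ := Subsingleton.elim _ _
  adm p hp := by
    obtain ⟨m, hm⟩ := quad_adm 1 0 1 hg (by
      rintro ⟨h, -⟩
      norm_num at h) p hp
    exact ⟨m, fun _ => hm⟩

open Classical in
lemma gset_eq (r : ℕ) (w : ℝ) (N H : ℕ) : Pool.Agent.Y882.SI.gset 1 r w N H = almost r w N H := by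
  ext n
  unfold Pool.Agent.Y882.SI.gset almost
  rw [mem_filter, mem_filter]
  have e : ((n : ℤ) ^ 2 + 1) = ((n ^ 2 + 1 : ℕ) : ℤ) := by push_cast; ring
  rw [e, Int.natAbs_natCast]
  constructor
  · rintro ⟨h1, h2, h3⟩
    exact ⟨h1, h2, fun q hq hd => h3 q hq (Int.natCast_dvd_natCast.2 hd)⟩
  · rintro ⟨h1, h2, h3⟩
    exact ⟨h1, h2, fun q hq hd => h3 q hq (Int.natCast_dvd_natCast.1 hd)⟩

/-- the sieve of helper882 -/
theorem few (r : ℕ) (t z : ℝ)
    (hpar : (r = 5 ∧ 1 / 2 ≤ t ∧ z = 2 / 5 * t) ∨ (r = 4 ∧ 269 / 500 ≤ t ∧ z = t / 4) ∨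
      (r = 3 ∧ 29 / 40 ≤ t ∧ z = t / 4)) (ht : t < 1) (h ε : ℝ) (hh : 0 < h) (h1 : h ≤ 1)
    (hε : 0 < ε) :
    ∃ δ : ℝ, 0 < δ ∧ ∃ X0 : ℕ, ∀ X : ℕ, X0 ≤ X →
      (((Icc 1 X).filter (fun M => ((almost r ((X : ℝ) ^ z) M ⌊(X : ℝ) ^ h⌋₊).card : ℝ) <
        δ * (X : ℝ) ^ h / Real.log X)).card : ℝ) ≤ (X : ℝ) ^ (2 * t - h + ε) := by
  have ha : ¬ IsSquare (-(1 : ℤ)) := by
    rintro ⟨r, hr⟩
    nlinarith [mul_self_nonneg r]
  simp only [← gset_eq]
  rcases hpar with ⟨rfl, ht0, rfl⟩ | ⟨rfl, ht0, rfl⟩ | ⟨rfl, ht0, rfl⟩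
  · have hc := Pool.Agent.Y882.KW.cond_B t (20 / 31) (by linarith) (by norm_num) (by norm_num)
    exact Pool.Agent.Y882.MG.finAll 1 ha 5 t (2 / 5 * t) (9 / 10 * t) (20 / 31)
      (1001 / 500) (by linarith) (by linarith) (by linarith) ht (by linarith) (by linarith)
      (by linarith) (by norm_num) hc (by norm_num) (by
        have h3 : (1001 / 500 : ℝ) / (9 / 10 * t) ≤ 4449 / 1000 := by
          rw [div_le_iff₀ (by linarith)]
          linarith
        push_cast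
        norm_num at h3 ⊢
        linarith) h ε hh h1 hε
  · have hc := Pool.Agent.Y882.KW.cond_A t (8 / 9) (by linarith) (by norm_num) (by norm_num)
    exact Pool.Agent.Y882.MG.finAll 1 ha 4 t (t / 4) (24 / 25 * t) (8 / 9)
      (2001 / 1000) (by linarith) (by linarith) (by linarith) ht (by linarith) (by linarith)
      (by linarith) (by norm_num) hc (by norm_num) (by
        have h3 : (2001 / 1000 : ℝ) / (24 / 25 * t) ≤ 3875 / 1000 := by
          rw [div_le_iff₀ (by linarith)]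
          linarith
        push_cast
        norm_num at h3 ⊢
        linarith) h ε hh h1 hε
  · have hc := Pool.Agent.Y882.KW.cond_A t (8 / 9) (by linarith) (by norm_num) (by norm_num)
    exact Pool.Agent.Y882.MG.finAll 1 ha 3 t (t / 4) (24 / 25 * t) (8 / 9)
      (2001 / 1000) (by linarith) (by linarith) (by linarith) ht (by linarith) (by linarith)
      (by linarith) (by norm_num) hc (by norm_num) (by
        have h3 : (2001 / 1000 : ℝ) / (24 / 25 * t) ≤ 2875 / 1000 := by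
          rw [div_le_iff₀ (by linarith)]
          linarith
        push_cast
        norm_num at h3 ⊢
        linarith) h ε hh h1 hε

/-- the relative theorem -/
theorem rel (k : ℕ) (κ δ : ℝ) (hκ : 0 < κ) (hκ1 : κ ≤ 1) (hδ : 0 < δ) :
    ∃ (B H₀ : ℕ) (c : ℝ), 0 < c ∧ ∀ H N : ℕ, H₀ ≤ H → ∀ P : Finset ℕ, P ⊆ Ioc N (N + H) →
      (∀ n ∈ P, ∀ q : ℕ, q.Prime → q ∣ n ^ 2 + 1 → (H : ℝ) ^ κ < q) →
      δ * (H / Real.log H) ≤ P.card → Popular k B c H P := by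
  obtain ⟨B, H₀, c, hc, h⟩ := Pool.Agent.L5helper4.DL.polyWin (fun _ : Fin 1 => quad 1 0 1) sys k κ δ
    hκ hκ1 hδ
  refine ⟨B, H₀, c, hc, fun H N hH P hP hr hPc D hD1 hD2 => ?_⟩
  have h1 := h H N hH P hP (fun n hn _ q hq hd => hr n hn q hq (by
    rw [ev] at hd
    exact Int.natCast_dvd_natCast.1 hd)) (by simpa using hPc) D hD1 hD2
  simp only [Fintype.card_fin, one_mul] at h1
  unfold occurrences
  convert h1 using 4

open Classical in
/-- the few exceptions -/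
theorem fewP (k r : ℕ) (t z : ℝ)
    (hpar : (r = 5 ∧ t = 1 / 2 ∧ z = 1 / 5) ∨ (r = 4 ∧ t = 269 / 500 ∧ z = 269 / 2000) ∨
      (r = 3 ∧ t = 29 / 40 ∧ z = 29 / 160)) (h ε : ℝ) (hh : 0 < h) (h1 : h ≤ 1)
    (hε : 0 < ε) :
    ∃ (B : ℕ) (c : ℝ), 0 < c ∧ ∀ᶠ X : ℕ in atTop,
      (((Icc 1 X).filter (fun N => ¬ Popular k B c ⌊(X : ℝ) ^ h⌋₊
        (almost r ((X : ℝ) ^ z) N ⌊(X : ℝ) ^ h⌋₊))).card : ℝ) ≤ (X : ℝ) ^ (2 * t - h + ε) := by
  obtain ⟨δ, hδ, X0, hfew⟩ := few r t z (by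
    rcases hpar with ⟨h1, h2, h3⟩ | ⟨h1, h2, h3⟩ | ⟨h1, h2, h3⟩
    · exact Or.inl ⟨h1, h2.ge, by rw [h3, h2]; norm_num⟩
    · exact Or.inr (Or.inl ⟨h1, h2.ge, by rw [h3, h2]; norm_num⟩)
    · exact Or.inr (Or.inr ⟨h1, h2.ge, by rw [h3, h2]; norm_num⟩)) (by
    rcases hpar with ⟨h1, h2, h3⟩ | ⟨h1, h2, h3⟩ | ⟨h1, h2, h3⟩ <;> rw [h2] <;> norm_num) h ε hh h1 hε
  have hz0 : 0 < z := by
    rcases hpar with ⟨h1, h2, h3⟩ | ⟨h1, h2, h3⟩ | ⟨h1, h2, h3⟩ <;> rw [h3] <;> norm_num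
  have hz1 : z ≤ 1 := by
    rcases hpar with ⟨h1, h2, h3⟩ | ⟨h1, h2, h3⟩ | ⟨h1, h2, h3⟩ <;> rw [h3] <;> norm_num
  obtain ⟨B, H₀, c, hc, hrel⟩ := rel k (z / 2) (δ * (h / 2)) (by positivity) (by linarith)
    (by positivity)
  refine ⟨B, c, hc, ?_⟩
  have tN : Tendsto (fun N : ℕ => (N : ℝ)) atTop atTop := tendsto_natCast_atTop_atTop
  have tH : Tendsto (fun X : ℕ => ⌊(X : ℝ) ^ h⌋₊) atTop atTop :=
    tendsto_nat_floor_atTop.comp ((tendsto_rpow_atTop hh).comp tN)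
  filter_upwards [eventually_ge_atTop X0, Pool.Agent.L5helper4.DL.floor_rpow hh,
    tH.eventually_ge_atTop H₀, eventually_ge_atTop 2] with X hX0 hfl hH0 hX2
  obtain ⟨hH3, hl1, -⟩ := hfl
  have hXr : (2 : ℝ) ≤ X := by exact_mod_cast hX2
  have hX1 : (1 : ℝ) < X := by linarith
  have hXp : (0 : ℝ) < X := by linarith
  have hlX : 0 < Real.log X := Real.log_pos hX1
  set H := ⌊(X : ℝ) ^ h⌋₊ with hH
  have hHX : (H : ℝ) ≤ (X : ℝ) ^ h := Nat.floor_le (by positivity)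
  have hHX1 : (H : ℝ) ≤ X := hHX.trans (by
    calc (X : ℝ) ^ h ≤ (X : ℝ) ^ (1 : ℝ) := Real.rpow_le_rpow_of_exponent_le hX1.le h1
      _ = X := Real.rpow_one _)
  refine le_trans ?_ (hfew X hX0)
  have hsub : (Icc 1 X).filter (fun N => ¬ Popular k B c H (almost r ((X : ℝ) ^ z) N H)) ⊆
      (Icc 1 X).filter (fun M => ((almost r ((X : ℝ) ^ z) M H).card : ℝ) <
        δ * (X : ℝ) ^ h / Real.log X) := by
    intro N hN
    rw [mem_filter] at hN ⊢
    refine ⟨hN.1, ?_⟩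
    by_contra hcon
    rw [not_lt] at hcon
    apply hN.2
    refine hrel H N hH0 _ (filter_subset _ _) ?_ ?_
    · intro n hn q hq hd
      unfold almost at hn
      rw [mem_filter] at hn
      refine lt_of_lt_of_le ?_ (hn.2.2 q hq hd)
      calc (H : ℝ) ^ (z / 2) ≤ (X : ℝ) ^ (z / 2) :=
            Real.rpow_le_rpow (Nat.cast_nonneg _) hHX1 (by linarith)
        _ < (X : ℝ) ^ z := Real.rpow_lt_rpow_of_exponent_lt hX1 (by linarith)
    · refine le_trans ?_ hcon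
      have hlH : 0 < Real.log H := lt_of_lt_of_le (by positivity) hl1
      calc δ * (h / 2) * (H / Real.log H) ≤ δ * (h / 2) * ((X : ℝ) ^ h / (h / 2 * Real.log X)) := by
            gcongr
        _ = δ * (X : ℝ) ^ h / Real.log X := by
            field_simp
  exact_mod_cast card_le_card hsub

open Classical in
/-- every interval of length `N ^ (3 / 4)` -/
theorem every (k : ℕ) : ∃ (B : ℕ) (c : ℝ), 0 < c ∧ ∀ᶠ N : ℕ in atTop,
    Popular k B c ⌊(N : ℝ) ^ (3 / 4 : ℝ)⌋₊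
      (almost 3 ((N : ℝ) ^ (7 / 40 : ℝ)) N ⌊(N : ℝ) ^ (3 / 4 : ℝ)⌋₊) := by
  obtain ⟨δ, hδ, X0, hfew⟩ := few 3 (29 / 40) (29 / 160) (Or.inr (Or.inr ⟨rfl, le_rfl, by norm_num⟩))
    (by norm_num) (29 / 40) (1 / 100) (by norm_num) (by norm_num) (by norm_num)
  obtain ⟨B, H₀, c, hc, hrel⟩ := rel k (1 / 10) (δ / 32) (by norm_num) (by norm_num) (by positivity)
  refine ⟨B, c, hc, ?_⟩
  have tN : Tendsto (fun N : ℕ => (N : ℝ)) atTop atTop := tendsto_natCast_atTop_atTop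
  have tH : Tendsto (fun X : ℕ => ⌊(X : ℝ) ^ (3 / 4 : ℝ)⌋₊) atTop atTop :=
    tendsto_nat_floor_atTop.comp ((tendsto_rpow_atTop (by norm_num)).comp tN)
  have ev1 : ∀ᶠ N : ℕ in atTop, (16 : ℝ) ≤ (N : ℝ) ^ (3 / 200 : ℝ) :=
    ((tendsto_rpow_atTop (by norm_num)).comp tN).eventually_ge_atTop _
  filter_upwards [eventually_ge_atTop X0,
    Pool.Agent.L5helper4.DL.floor_rpow (show (0 : ℝ) < 3 / 4 by norm_num),
    tH.eventually_ge_atTop H₀, eventually_ge_atTop 2, ev1] with N hX0 hfl hH0 hN2 hN16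
  obtain ⟨hH3, hl1, -⟩ := hfl
  have hNr : (2 : ℝ) ≤ N := by exact_mod_cast hN2
  have hN1 : (1 : ℝ) < N := by linarith
  have hNp : (0 : ℝ) < N := by linarith
  have hlN : 0 < Real.log N := Real.log_pos hN1
  set H := ⌊(N : ℝ) ^ (3 / 4 : ℝ)⌋₊ with hH
  have hHN : (H : ℝ) ≤ (N : ℝ) ^ (3 / 4 : ℝ) := Nat.floor_le (by positivity)
  have hHN1 : (H : ℝ) ≤ N := hHN.trans (by
    calc (N : ℝ) ^ (3 / 4 : ℝ) ≤ (N : ℝ) ^ (1 : ℝ) :=
          Real.rpow_le_rpow_of_exponent_le hN1.le (by norm_num)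
      _ = N := Real.rpow_one _)
  have hHNn : H ≤ N := by exact_mod_cast hHN1
  obtain ⟨X, hX⟩ : ∃ X, X = 2 * N := ⟨_, rfl⟩
  have hXr : (X : ℝ) = 2 * N := by rw [hX]; push_cast; ring
  have hX1 : (1 : ℝ) < X := by linarith
  have hXp : (0 : ℝ) < X := by linarith
  have hlX : 0 < Real.log X := Real.log_pos hX1
  have hlX2 : Real.log X ≤ 2 * Real.log N := by
    rw [hXr, Real.log_mul (by norm_num) hNp.ne']
    have := Real.log_le_log (by norm_num) hNr
    linarith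
  have hf := hfew X (by omega)
  rw [show (2 * (29 / 40) - 29 / 40 + 1 / 100 : ℝ) = 147 / 200 by norm_num] at hf
  set L := ⌊(X : ℝ) ^ (29 / 40 : ℝ)⌋₊ with hL
  have hL1 : (L : ℝ) ≤ (X : ℝ) ^ (29 / 40 : ℝ) := Nat.floor_le (by positivity)
  have hL2 : 1 ≤ L := Nat.le_floor (by
    push_cast
    exact Real.one_le_rpow hX1.le (by norm_num))
  have hLr : (0 : ℝ) < L := by exact_mod_cast hL2
  have hbig : (X : ℝ) ^ (147 / 200 : ℝ) ≤ (N : ℝ) ^ (3 / 4 : ℝ) / 8 := by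
    have e1 : (X : ℝ) ^ (147 / 200 : ℝ) ≤ 2 * (N : ℝ) ^ (147 / 200 : ℝ) := by
      rw [hXr, Real.mul_rpow (by norm_num) hNp.le]
      apply mul_le_mul_of_nonneg_right _ (by positivity)
      calc (2 : ℝ) ^ (147 / 200 : ℝ) ≤ (2 : ℝ) ^ (1 : ℝ) :=
            Real.rpow_le_rpow_of_exponent_le (by norm_num) (by norm_num)
        _ = 2 := Real.rpow_one _
    have e2 : 16 * (N : ℝ) ^ (147 / 200 : ℝ) ≤ (N : ℝ) ^ (3 / 4 : ℝ) := by
      calc 16 * (N : ℝ) ^ (147 / 200 : ℝ) ≤ (N : ℝ) ^ (3 / 200 : ℝ) * (N : ℝ) ^ (147 / 200 : ℝ) := by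
            gcongr
        _ = (N : ℝ) ^ (3 / 4 : ℝ) := by
            rw [← Real.rpow_add hNp]
            norm_num
    linarith
  have hLb : (X : ℝ) ^ (29 / 40 : ℝ) ≤ (X : ℝ) ^ (147 / 200 : ℝ) :=
    Real.rpow_le_rpow_of_exponent_le hX1.le (by norm_num)
  have hN34 : (N : ℝ) ^ (3 / 4 : ℝ) - 1 < H := by
    have := Nat.lt_floor_add_one ((N : ℝ) ^ (3 / 4 : ℝ))
    rw [← hH] at this
    linarith
  have hH3' : (3 : ℝ) ≤ H := by exact_mod_cast hH3
  have hN34' : (N : ℝ) ^ (3 / 4 : ℝ) ≤ 2 * H := by linarith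
  have hLH : L ≤ H := by
    have : (L : ℝ) ≤ H := by linarith
    exact_mod_cast this
  have hlong : ((H : ℝ) - L - (X : ℝ) ^ (147 / 200 : ℝ)) *
      (δ * (X : ℝ) ^ (29 / 40 : ℝ) / Real.log X) ≤
      L * ((almost 3 ((X : ℝ) ^ (29 / 160 : ℝ)) N H).card : ℝ) := by
    have h := Pool.Agent.Y882.MG.long_of_short
      (fun n => (n ^ 2 + 1).primeFactorsList.length ≤ 3 ∧
        ∀ q : ℕ, q.Prime → q ∣ n ^ 2 + 1 → (X : ℝ) ^ (29 / 160 : ℝ) ≤ q) N L H X
      (δ * (X : ℝ) ^ (29 / 40 : ℝ) / Real.log X) ((X : ℝ) ^ (147 / 200 : ℝ)) (by omega) hLH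
      (by omega) (by omega) (by positivity) (by
        unfold almost at hf
        convert hf)
    unfold almost
    convert h
  have h10 : (H : ℝ) / 2 * (δ * (X : ℝ) ^ (29 / 40 : ℝ) / Real.log X) ≤
      (X : ℝ) ^ (29 / 40 : ℝ) * ((almost 3 ((X : ℝ) ^ (29 / 160 : ℝ)) N H).card : ℝ) := by
    refine le_trans ?_ (hlong.trans (mul_le_mul_of_nonneg_right hL1 (Nat.cast_nonneg _)))
    apply mul_le_mul_of_nonneg_right _ (by positivity)
    linarith
  have h11 : (H : ℝ) / 2 * (δ * (X : ℝ) ^ (29 / 40 : ℝ) / Real.log X) =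
      (X : ℝ) ^ (29 / 40 : ℝ) * (δ / 2 * H / Real.log X) := by ring
  rw [h11] at h10
  have h12 := le_of_mul_le_mul_left h10 (by positivity)
  refine hrel H N hH0 _ (filter_subset _ _) ?_ ?_
  · intro n hn q hq hd
    unfold almost at hn
    rw [mem_filter] at hn
    refine lt_of_lt_of_le ?_ (hn.2.2 q hq hd)
    calc (H : ℝ) ^ (1 / 10 : ℝ) ≤ (N : ℝ) ^ (1 / 10 : ℝ) :=
          Real.rpow_le_rpow (Nat.cast_nonneg _) hHN1 (by norm_num)
      _ < (N : ℝ) ^ (7 / 40 : ℝ) := Real.rpow_lt_rpow_of_exponent_lt hN1 (by norm_num)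
  · have hlH : 0 < Real.log H := lt_of_lt_of_le (by positivity) hl1
    have h13 : ((almost 3 ((X : ℝ) ^ (29 / 160 : ℝ)) N H).card : ℝ) ≤
        ((almost 3 ((N : ℝ) ^ (7 / 40 : ℝ)) N H).card : ℝ) := by
      have : almost 3 ((X : ℝ) ^ (29 / 160 : ℝ)) N H ⊆ almost 3 ((N : ℝ) ^ (7 / 40 : ℝ)) N H := by
        intro n hn
        unfold almost at hn ⊢
        rw [mem_filter] at hn ⊢
        refine ⟨hn.1, hn.2.1, fun q hq hd => le_trans ?_ (hn.2.2 q hq hd)⟩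
        calc (N : ℝ) ^ (7 / 40 : ℝ) ≤ (N : ℝ) ^ (29 / 160 : ℝ) :=
              Real.rpow_le_rpow_of_exponent_le hN1.le (by norm_num)
          _ ≤ (X : ℝ) ^ (29 / 160 : ℝ) := Real.rpow_le_rpow hNp.le (by linarith) (by norm_num)
      exact_mod_cast card_le_card this
    refine le_trans ?_ (h12.trans h13)
    have h14 : Real.log X ≤ 16 * Real.log H := by
      have : 3 / 4 / 2 * Real.log N ≤ Real.log H := hl1
      linarith
    calc δ / 32 * (H / Real.log H) = δ / 2 * H / (16 * Real.log H) := by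
          field_simp
          norm_num
      _ ≤ δ / 2 * H / Real.log X := by gcongr

open Classical in
/-- **Almost primes `n ^ 2 + 1` in short intervals: popular differences at all scales.** -/
theorem result (k : ℕ) :
    (∀ κ δ : ℝ, 0 < κ → κ ≤ 1 → 0 < δ → ∃ (B H₀ : ℕ) (c : ℝ), 0 < c ∧ ∀ H N : ℕ, H₀ ≤ H →
      ∀ P : Finset ℕ, P ⊆ Ioc N (N + H) →
      (∀ n ∈ P, ∀ q : ℕ, q.Prime → q ∣ n ^ 2 + 1 → (H : ℝ) ^ κ < q) →
      δ * (H / Real.log H) ≤ P.card → Popular k B c H P) ∧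
    (∃ (B : ℕ) (c : ℝ), 0 < c ∧ ∀ᶠ N : ℕ in atTop, Popular k B c ⌊(N : ℝ) ^ (3 / 4 : ℝ)⌋₊
      (almost 3 ((N : ℝ) ^ (7 / 40 : ℝ)) N ⌊(N : ℝ) ^ (3 / 4 : ℝ)⌋₊)) ∧
    ∀ (r : ℕ) (t z h ε : ℝ),
      ((r = 5 ∧ t = 1 / 2 ∧ z = 1 / 5) ∨ (r = 4 ∧ t = 269 / 500 ∧ z = 269 / 2000) ∨
        (r = 3 ∧ t = 29 / 40 ∧ z = 29 / 160)) → 0 < h → h ≤ 1 → 0 < ε →
      ∃ (B : ℕ) (c : ℝ), 0 < c ∧ ∀ᶠ X : ℕ in atTop,
        (((Icc 1 X).filter (fun N => ¬ Popular k B c ⌊(X : ℝ) ^ h⌋₊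
          (almost r ((X : ℝ) ^ z) N ⌊(X : ℝ) ^ h⌋₊))).card : ℝ) ≤ (X : ℝ) ^ (2 * t - h + ε) :=
  ⟨fun κ δ h1 h2 h3 => rel k κ δ h1 h2 h3, every k,
    fun r t z h ε hpar h1 h2 h3 => fewP k r t z hpar h ε h1 h2 h3⟩

end Pool.Agent.L5helper4.Retired.MPf1a94ePopularDifferences
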